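import Pool.Agent.R632.CM.Main

/-!
Splittings over subgroups of finite index.
-/

set_option autoImplicit false

namespace Pool.Agent.R632.CM

open Pool.Agent.Y110.FJ HNNExtension Pointwise

section Comm

variable {G : Type} [Group G] (Γ : Subgroup G)

theorem smul_eq (g : G) : ConjAct.toConjAct g • Γ = Γ.map (MulAut.conj g).toMonoidHom := by
  ext x
  rw [Subgroup.mem_smul_pointwise_iff_exists, Subgroup.mem_map]
  constructor
  · rintro ⟨y, hy, rfl⟩
    exact ⟨y, hy, by simp [ConjAct.smul_def]⟩
  · rintro ⟨y, hy, rfl⟩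
    exact ⟨y, hy, by simp [ConjAct.smul_def]⟩

theorem mem_comm (g : G) : g ∈ Subgroup.Commensurable.commensurator Γ ↔
    Subgroup.Commensurable (Γ.map (MulAut.conj g).toMonoidHom) Γ := by
  rw [Subgroup.Commensurable.commensurator_mem_iff, smul_eq]

theorem commensurated_of_top (h : ⊤ ≤ Subgroup.Commensurable.commensurator Γ) :
    Commensurated Γ := fun g => ((mem_comm Γ g).1 (h (Subgroup.mem_top g))).1

/-- The elements of an overgroup of finite index commensurate. -/
theorem le_comm {A : Subgroup G} (hle : Γ ≤ A) (hfin : Γ.relIndex A ≠ 0) :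
    A ≤ Subgroup.Commensurable.commensurator Γ := by
  intro a ha
  rw [mem_comm]
  have hmap : A.map (MulAut.conj a).toMonoidHom = A := by
    ext x
    rw [Subgroup.mem_map]
    constructor
    · rintro ⟨y, hy, rfl⟩
      exact A.mul_mem (A.mul_mem ha hy) (A.inv_mem ha)
    · intro hx
      exact ⟨a⁻¹ * x * a, A.mul_mem (A.mul_mem (A.inv_mem ha) hx) ha, by simp; group⟩
  have h1 : (Γ.map (MulAut.conj a).toMonoidHom).relIndex A ≠ 0 := by
    have h2 := Subgroup.relIndex_map_map_of_injective Γ A (f := (MulAut.conj a).toMonoidHom)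
      (MulEquiv.injective _)
    rw [hmap] at h2
    rw [h2]
    exact hfin
  have h3 : Γ.map (MulAut.conj a).toMonoidHom ≤ A := by
    rw [← hmap]
    exact Subgroup.map_mono hle
  exact ⟨fun h0 => h1 (Subgroup.relIndex_eq_zero_of_le_right hle h0),
    fun h0 => hfin (Subgroup.relIndex_eq_zero_of_le_right h3 h0)⟩

end Comm

/-- Amalgamated products over a subgroup of finite index. -/
theorem amalgam_fin {C : ∀ (G : Type) [Group G], Prop} (hC : ClosedE C) {G P : Type} [Group G]
    [Group P] (A B K : Subgroup G) (hamg : Amg A B K) (hA : K.relIndex A ≠ 0)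
    (hB : K.relIndex B ≠ 0) (i : K →* P) (hi : RealizesComm i) (hP : C P) : C G := by
  have hCK : C K := hC.base.of_injective K P i hi.inj hP
  have hfin : ∀ A : Subgroup G, K ≤ A → K.relIndex A ≠ 0 → C A := by
    intro A hle h
    refine hC.base.finiteIndex A (K.subgroupOf A) ⟨h⟩ ?_
    exact hC.base.of_injective _ K (Subgroup.subgroupOfEquivOfLe hle).toMonoidHom
      (MulEquiv.injective _) hCK
  have hcomm : Commensurated K := by
    apply commensurated_of_top
    rw [← hamg.gen]
    exact sup_le (le_comm K hamg.le_left hA) (le_comm K hamg.le_right hB)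
  refine main hC hcomm i hi hP G (MonoidHom.id G) ?_
  refine Splits.amalgam G _ A B K hamg ?_ (Splits.vertex A _ (hfin A hamg.le_left hA))
    (Splits.vertex B _ (hfin B hamg.le_right hB))
  intro k hk L hL hL2 hL3
  have h1 := hi.uniq (L.subgroupOf K) (i ⟨k, hk⟩) ⟨hL2⟩ ?_
  · have h2 : (⟨k, hk⟩ : K) = 1 := hi.inj (by rw [h1, map_one])
    exact congrArg Subtype.val h2
  · intro x hx
    rw [← map_mul, ← map_mul]
    congr 1
    exact Subtype.ext (hL3 x hx)

/-- HNN extensions with associated subgroups of finite index. -/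
theorem hnn_fin {C : ∀ (G : Type) [Group G], Prop} (hC : ClosedE C) {M P : Type} [Group M]
    [Group P] (A B : Subgroup M) (φ : A ≃* B) (hA : A.FiniteIndex) (hB : B.FiniteIndex)
    (i : (of : M →* HNNExtension M A B φ).range →* P) (hi : RealizesComm i) (hP : C P) :
    C (HNNExtension M A B φ) := by
  have hCM : C M := hC.base.of_injective M P
    (i.comp (of : M →* HNNExtension M A B φ).rangeRestrict)
    (hi.inj.comp (fun a b h => HNNExtension.of_injective φ (congrArg Subtype.val h))) hP
  obtain ⟨Γ, hΓ⟩ : ∃ Γ : Subgroup (HNNExtension M A B φ), Γ = (of : M →* _).range := ⟨_, rfl⟩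
  have hrel : ∀ S : Subgroup M, S.FiniteIndex →
      (S.map (of : M →* HNNExtension M A B φ)).relIndex (of : M →* HNNExtension M A B φ).range
        ≠ 0 := by
    intro S hS
    rw [MonoidHom.range_eq_map, Subgroup.relIndex_map_map_of_injective _ _
      (HNNExtension.of_injective φ), Subgroup.relIndex_top_right]
    exact hS.index_ne_zero
  have hconj : (A.map (of : M →* HNNExtension M A B φ)).map (MulAut.conj t).toMonoidHom =
      B.map of := by
    ext x
    constructor
    · rintro ⟨_, ⟨a, ha, rfl⟩, rfl⟩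
      refine ⟨φ ⟨a, ha⟩, (φ ⟨a, ha⟩).2, ?_⟩
      rw [equiv_eq_conj]
      rfl
    · rintro ⟨b, hb, rfl⟩
      refine ⟨of ((φ.symm ⟨b, hb⟩ : A) : M), ⟨_, (φ.symm ⟨b, hb⟩ : A).2, rfl⟩, ?_⟩
      have h1 := equiv_eq_conj (φ := φ) (φ.symm ⟨b, hb⟩)
      rw [MulEquiv.apply_symm_apply] at h1
      exact h1.symm
  have hcomm : Commensurated (of : M →* HNNExtension M A B φ).range := by
    apply commensurated_of_top
    intro g _
    induction g using HNNExtension.induction_on with
    | of m =>
      exact le_comm (of : M →* HNNExtension M A B φ).range le_rfl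
        (by rw [Subgroup.relIndex_self]; exact one_ne_zero) ⟨m, rfl⟩
    | t =>
      rw [mem_comm]
      have h1 : B.map (of : M →* HNNExtension M A B φ) ≤
          (of : M →* HNNExtension M A B φ).range.map (MulAut.conj t).toMonoidHom := by
        rw [← hconj]
        exact Subgroup.map_mono (Subgroup.map_le_range _ _)
      constructor
      · exact fun h0 => hrel B hB (Subgroup.relIndex_eq_zero_of_le_left h1 h0)
      · intro h0
        have h2 : (B.map (of : M →* HNNExtension M A B φ)).relIndex
            ((of : M →* HNNExtension M A B φ).range.map (MulAut.conj t).toMonoidHom) = 0 :=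
          Subgroup.relIndex_eq_zero_of_le_left (Subgroup.map_le_range _ _) h0
        rw [← hconj, Subgroup.relIndex_map_map_of_injective _ _ (MulEquiv.injective _)] at h2
        exact hrel A hA h2
    | mul a b ha hb => exact Subgroup.mul_mem _ (ha (Subgroup.mem_top _)) (hb (Subgroup.mem_top _))
    | inv a ha => exact Subgroup.inv_mem _ (ha (Subgroup.mem_top _))
  refine main hC hcomm i hi hP _ (MonoidHom.id _) ?_
  refine Splits.hnn M A B φ _ ?_ (Splits.vertex M _ hCM)
  intro k _ L hL hL2 hL3
  have h1 := hi.uniq (L.subgroupOf _) (i ⟨of k, ⟨k, rfl⟩⟩) ⟨hL2⟩ ?_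
  · have h2 : (⟨of k, ⟨k, rfl⟩⟩ : (of : M →* HNNExtension M A B φ).range) = 1 :=
      hi.inj (by rw [h1, map_one])
    exact (map_eq_one_iff of (HNNExtension.of_injective φ)).1 (congrArg Subtype.val h2)
  · intro x hx
    rw [← map_mul, ← map_mul]
    congr 1
    exact Subtype.ext (hL3 x hx)

end Pool.Agent.R632.CM
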