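import Mathlib
import Pool.Agent.R665.FJ.Hn

/-!
Groups with a commensurated subgroup all of whose commensurations are realized in a group of a
Farrell–Jones class: splittings over subgroups which act faithfully up to commensurability.
-/

set_option autoImplicit false

namespace Pool.Agent.R632.CM

open Pool.Agent.Y110.FJ HNNExtension

/-- `Γ` is commensurated in `G`: every conjugate of `Γ` meets `Γ` in a subgroup of finite index of
`Γ`. -/
def Commensurated {G : Type} [Group G] (Γ : Subgroup G) : Prop :=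
  ∀ g : G, (Γ.map (MulAut.conj g).toMonoidHom).relIndex Γ ≠ 0

/-- The embedding `i` of `Γ` in `P` realizes the commensurations of `Γ`: every isomorphism between
subgroups of finite index of `Γ` is induced by the conjugation by an element of `P`, and the
centralizers in `P` of the subgroups of finite index of `Γ` are trivial. -/
structure RealizesComm {Γ P : Type} [Group Γ] [Group P] (i : Γ →* P) : Prop where
  inj : Function.Injective i
  ex : ∀ (H : Subgroup Γ) (φ : H →* Γ), H.FiniteIndex → φ.range.FiniteIndex →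
    Function.Injective φ → ∃ p : P, ∀ x : H, i (φ x) = p * i x * p⁻¹
  uniq : ∀ (H : Subgroup Γ) (p : P), H.FiniteIndex → (∀ x ∈ H, p * i x = i x * p) → p = 1

section Ext

variable {G P : Type} [Group G] [Group P] {Γ : Subgroup G}

/-- The elements of `Γ` whose conjugate by `g` is in `Γ`. -/
def HH (Γ : Subgroup G) (g : G) : Subgroup Γ where
  carrier := {x | g * x * g⁻¹ ∈ Γ}
  one_mem' := by simp
  mul_mem' := by
    intro a b ha hb
    have := Γ.mul_mem ha hb
    have e : g * (a * b : Γ) * g⁻¹ = g * a * g⁻¹ * (g * b * g⁻¹) := by push_cast; group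
    rw [Set.mem_ofPred_eq, e]
    exact this
  inv_mem' := by
    intro a ha
    have := Γ.inv_mem ha
    have e : g * (a⁻¹ : Γ) * g⁻¹ = (g * a * g⁻¹)⁻¹ := by push_cast; group
    rw [Set.mem_ofPred_eq, e]
    exact this

theorem mem_HH (g : G) (x : Γ) : x ∈ HH Γ g ↔ g * x * g⁻¹ ∈ Γ := Iff.rfl

theorem HH_fin (hΓ : Commensurated Γ) (g : G) : (HH Γ g).FiniteIndex := by
  have h1 := hΓ g⁻¹
  have h2 : (Γ.map (MulAut.conj g⁻¹).toMonoidHom).subgroupOf Γ = HH Γ g := by
    ext x
    rw [Subgroup.mem_subgroupOf, mem_HH, Subgroup.mem_map]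
    constructor
    · rintro ⟨y, hy, hyx⟩
      have e : g * (x : G) * g⁻¹ = y := by
        rw [← hyx]
        simp
        group
      rw [e]
      exact hy
    · intro h
      exact ⟨_, h, by simp; group⟩
  refine ⟨?_⟩
  rw [← h2]
  exact h1

/-- Conjugation by `g`. -/
def cj (Γ : Subgroup G) (g : G) : HH Γ g →* Γ where
  toFun x := ⟨g * (x : Γ) * g⁻¹, x.2⟩
  map_one' := Subtype.ext (by simp)
  map_mul' a b := Subtype.ext (by push_cast; group)

theorem cj_val (g : G) (x : HH Γ g) : ((cj Γ g x : Γ) : G) = g * (x : Γ) * g⁻¹ := rfl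

theorem cj_inj (g : G) : Function.Injective (cj Γ g) := by
  intro a b h
  have h1 := congrArg Subtype.val h
  rw [cj_val, cj_val] at h1
  apply Subtype.ext
  apply Subtype.ext
  simpa using h1

theorem cj_range (g : G) : (cj Γ g).range = HH Γ g⁻¹ := by
  ext y
  rw [MonoidHom.mem_range, mem_HH]
  constructor
  · rintro ⟨x, rfl⟩
    rw [cj_val]
    have e : g⁻¹ * (g * ((x : Γ) : G) * g⁻¹) * g⁻¹⁻¹ = ((x : Γ) : G) := by group
    rw [e]
    exact (x : Γ).2
  · intro h
    refine ⟨⟨⟨g⁻¹ * y * g⁻¹⁻¹, h⟩, ?_⟩, ?_⟩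
    · rw [mem_HH]
      have e : g * (g⁻¹ * (y : G) * g⁻¹⁻¹) * g⁻¹ = y := by group
      change g * (g⁻¹ * (y : G) * g⁻¹⁻¹) * g⁻¹ ∈ Γ
      rw [e]
      exact y.2
    · apply Subtype.ext
      rw [cj_val]
      change g * (g⁻¹ * (y : G) * g⁻¹⁻¹) * g⁻¹ = y
      group

/-- **The canonical extension.** -/
theorem exists_ext (hΓ : Commensurated Γ) (i : Γ →* P) (hi : RealizesComm i) :
    ∃ f : G →* P, (∀ (g : G) (x y : Γ), (y : G) = g * x * g⁻¹ → i y = f g * i x * (f g)⁻¹) ∧
      ∀ g : G, f g = 1 → ∃ H : Subgroup G, H ≤ Γ ∧ H.relIndex Γ ≠ 0 ∧ ∀ x ∈ H, g * x = x * g := by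
  have hex : ∀ g : G, ∃ p : P, ∀ x : HH Γ g, i (cj Γ g x) = p * i x * p⁻¹ := by
    intro g
    refine hi.ex (HH Γ g) (cj Γ g) (HH_fin hΓ g) ?_ (cj_inj g)
    rw [cj_range]
    exact HH_fin hΓ g⁻¹
  choose p hp using hex
  have hp' : ∀ (g : G) (x y : Γ), (y : G) = g * x * g⁻¹ → i y = p g * i x * (p g)⁻¹ := by
    intro g x y h
    have hx : x ∈ HH Γ g := by
      rw [mem_HH, ← h]
      exact y.2
    rw [← hp g ⟨x, hx⟩]
    congr 1
    exact Subtype.ext h
  have hmul : ∀ g h : G, p (g * h) = p g * p h := by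
    intro g h
    have hfin : (HH Γ h ⊓ HH Γ (g * h)).FiniteIndex := by
      have := HH_fin hΓ h
      have := HH_fin hΓ (g * h)
      infer_instance
    have h1 := hi.uniq (HH Γ h ⊓ HH Γ (g * h)) ((p (g * h))⁻¹ * (p g * p h)) hfin ?_
    · rw [inv_mul_eq_one] at h1
      exact h1
    · rintro x ⟨hx1, hx2⟩
      have e1 := hp' h x ⟨h * x * h⁻¹, hx1⟩ rfl
      have e2 := hp' (g * h) x ⟨g * h * x * (g * h)⁻¹, hx2⟩ rfl
      have e3 := hp' g ⟨h * x * h⁻¹, hx1⟩ ⟨g * h * x * (g * h)⁻¹, hx2⟩ (by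
        change g * h * (x : G) * (g * h)⁻¹ = g * (h * x * h⁻¹) * g⁻¹
        group)
      rw [e1, e2] at e3
      have e4 : (p (g * h))⁻¹ * (p (g * h) * i x * (p (g * h))⁻¹) * (p g * p h) =
          (p (g * h))⁻¹ * (p g * (p h * i x * (p h)⁻¹) * (p g)⁻¹) * (p g * p h) := by rw [e3]
      have e5 : (p (g * h))⁻¹ * (p (g * h) * i x * (p (g * h))⁻¹) * (p g * p h) =
          i x * ((p (g * h))⁻¹ * (p g * p h)) := by group
      have e6 : (p (g * h))⁻¹ * (p g * (p h * i x * (p h)⁻¹) * (p g)⁻¹) * (p g * p h) =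
          ((p (g * h))⁻¹ * (p g * p h)) * i x := by group
      rw [e5, e6] at e4
      exact e4.symm
  refine ⟨MonoidHom.mk' p hmul, hp', ?_⟩
  intro g hg
  have hg' : p g = 1 := hg
  refine ⟨(HH Γ g).map Γ.subtype, ?_, ?_, ?_⟩
  · rintro _ ⟨x, -, rfl⟩
    exact x.2
  · have h1 : ((HH Γ g).map Γ.subtype).subgroupOf Γ = HH Γ g := by
      rw [Subgroup.subgroupOf, Subgroup.comap_map_eq_self_of_injective Γ.subtype_injective]
    rw [Subgroup.relIndex, h1]
    exact (HH_fin hΓ g).index_ne_zero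
  · rintro _ ⟨x, hx, rfl⟩
    have e := hp' g x ⟨g * x * g⁻¹, hx⟩ rfl
    rw [hg'] at e
    have e2 : i (⟨g * x * g⁻¹, hx⟩ : Γ) = i x := by rw [e]; group
    have e3 := congrArg Subtype.val (hi.inj e2)
    change g * (x : G) * g⁻¹ = x at e3
    change g * (x : G) = x * g
    exact mul_inv_eq_iff_eq_mul.1 e3

end Ext

/-- The homomorphisms `j : H → G` of groups that are built from groups in `C` by amalgamated products,
HNN extensions and directed unions, where the image in `G` of a nontrivial element of an edge group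
never centralizes a subgroup of finite index of `Γ`. -/
inductive Splits (C : ∀ (G : Type) [Group G], Prop) {G : Type} [Group G] (Γ : Subgroup G) :
    ∀ (H : Type) [Group H], (H →* G) → Prop
  | vertex (H : Type) [Group H] (j : H →* G) : C H → Splits C Γ H j
  | amalgam (H : Type) [Group H] (j : H →* G) (A B K : Subgroup H) : Amg A B K →
      (∀ k ∈ K, ∀ L : Subgroup G, L ≤ Γ → L.relIndex Γ ≠ 0 → (∀ x ∈ L, j k * x = x * j k) → k = 1) →
      Splits C Γ A (j.comp A.subtype) → Splits C Γ B (j.comp B.subtype) → Splits C Γ H j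
  | hnn (M : Type) [Group M] (A B : Subgroup M) (φ : A ≃* B) (j : HNNExtension M A B φ →* G) :
      (∀ k ∈ A, ∀ L : Subgroup G, L ≤ Γ → L.relIndex Γ ≠ 0 →
        (∀ x ∈ L, j (of k) * x = x * j (of k)) → k = 1) →
      Splits C Γ M (j.comp of) → Splits C Γ (HNNExtension M A B φ) j
  | iso (H H' : Type) [Group H] [Group H'] (e : H ≃* H') (j : H' →* G) :
      Splits C Γ H' j → Splits C Γ H (j.comp e.toMonoidHom)
  | union (H : Type) [Group H] (j : H →* G) (I : Type) (K : I → Subgroup H) :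
      Nonempty I → Directed (· ≤ ·) K → (∀ g, ∃ i, g ∈ K i) →
      (∀ i, Splits C Γ (K i) (j.comp (K i).subtype)) → Splits C Γ H j

/-- **Splittings over subgroups that act faithfully up to commensurability.** -/
theorem main {C : ∀ (G : Type) [Group G], Prop} (hC : ClosedE C) {G P : Type} [Group G] [Group P]
    {Γ : Subgroup G} (hΓ : Commensurated Γ) (i : Γ →* P) (hi : RealizesComm i) (hP : C P)
    (H : Type) [Group H] (j : H →* G) (h : Splits C Γ H j) : C H := by
  obtain ⟨f, -, hf⟩ := exists_ext hΓ i hi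
  induction h with
  | vertex H j h => exact h
  | amalgam H j A B K hamg hK _ _ ihA ihB =>
    refine Pool.Agent.R665.FJ.am hC A B K ihA ihB hP hamg (f.comp j) fun k hk h1 => ?_
    obtain ⟨L, hL, hL2, hL3⟩ := hf (j k) h1
    exact hK k hk L hL hL2 hL3
  | hnn M A B φ j hA _ ih =>
    refine Pool.Agent.R665.FJ.hn hC ih hP (f.comp j) fun k hk h1 => ?_
    obtain ⟨L, hL, hL2, hL3⟩ := hf (j (of k)) h1
    exact hA k hk L hL hL2 hL3
  | iso H H' e j _ ih => exact hC.base.of_injective H H' e.toMonoidHom e.injective ih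
  | union H j I K hI hK hg _ ih =>
    let J : Type := Set.range K
    have hJ : Nonempty J := ⟨⟨K hI.some, hI.some, rfl⟩⟩
    refine Pool.Agent.Y430.SS.of_directed hC.base H J ?_ (fun j => j.1) (fun i j h => h) ?_ ?_
    · rintro ⟨_, i, rfl⟩ ⟨_, j, rfl⟩
      obtain ⟨k, hik, hjk⟩ := hK i j
      exact ⟨⟨K k, k, rfl⟩, hik, hjk⟩
    · intro g
      obtain ⟨i, hi⟩ := hg g
      exact ⟨⟨K i, i, rfl⟩, hi⟩
    · rintro ⟨_, i, rfl⟩
      exact ih i

end Pool.Agent.R632.CM
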